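import Mathlib

set_option autoImplicit false
set_option linter.constructorNameAsVariable false

namespace Pool.Agent.Results.MP_259ac5_co.SevenPoints

open Classical

/-- The inclusion of the lattice `ℤ²` into the plane `ℝ²`. -/
noncomputable def emb (z : ℤ × ℤ) : ℝ × ℝ := ((z.1 : ℝ), (z.2 : ℝ))

/-- A convex lattice set: a finite `F ⊆ ℤ²` with `F = conv(F) ∩ ℤ²`. -/
def IsConvexLatticeSet (F : Finset (ℤ × ℤ)) : Prop :=
  ∀ z : ℤ × ℤ, emb z ∈ convexHull ℝ (emb '' (F : Set (ℤ × ℤ))) → z ∈ F

/-- `L` is a line of the plane. -/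
def IsLine (L : AffineSubspace ℝ (ℝ × ℝ)) : Prop :=
  (L : Set (ℝ × ℝ)).Nonempty ∧ Module.finrank ℝ L.direction = 1

/-- The number of points of `E` on `L`. -/
noncomputable def countOn (E : Finset (ℤ × ℤ)) (L : AffineSubspace ℝ (ℝ × ℝ)) : ℕ :=
  (E.filter (fun z => emb z ∈ L)).card

/-- `E₁` and `E₂` have the same discrete point X-ray at `p`. -/
def SameXray (p : ℤ × ℤ) (E₁ E₂ : Finset (ℤ × ℤ)) : Prop :=
  ∀ L : AffineSubspace ℝ (ℝ × ℝ), IsLine L → emb p ∈ L → countOn E₁ L = countOn E₂ L

/-- The class of convex lattice sets disjoint from every line through two distinct points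
of `P`. -/
def InClass (P : Finset (ℤ × ℤ)) (F : Finset (ℤ × ℤ)) : Prop :=
  IsConvexLatticeSet F ∧ ∀ p ∈ P, ∀ q ∈ P, p ≠ q → ∀ L : AffineSubspace ℝ (ℝ × ℝ), IsLine L →
    emb p ∈ L → emb q ∈ L → ∀ z ∈ F, emb z ∉ L

/-- Discrete point X-rays at `P` determine convex lattice sets. -/
def Determines (P : Finset (ℤ × ℤ)) : Prop :=
  ∀ F₁ F₂ : Finset (ℤ × ℤ), InClass P F₁ → InClass P F₂ →
    (∀ p ∈ P, SameXray p F₁ F₂) → F₁ = F₂

/-! ### The example -/

/-- First half of the vertices of the convex 16-gon. -/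
def VA : Fin 8 → ℤ × ℤ := ![(-194040, 9507960), (-3528, 49392), (-64680, -4829440),
  (-41160, 3155600), (-3960, -99000), (-246960, -7717500), (-8085, 471625), (-11760, -788900)]

/-- Second half of the vertices of the convex 16-gon. -/
def VB : Fin 8 → ℤ × ℤ := ![(-194040, -9507960), (-3528, -49392), (-64680, 4829440),
  (-41160, -3155600), (-3960, 99000), (-246960, 7717500), (-8085, -471625), (-11760, 788900)]

/-- The seven points. -/
def pt : Fin 7 → ℤ × ℤ := ![(0, -226380), (17640, 1852200), (194040, -22638000), (-1960, 0),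
  (194040, 22638000), (17640, -1852200), (0, 226380)]

/-- The partner of the `i`-th `A`-vertex with respect to the `j`-th point. -/
def partner (j : Fin 7) (i : Fin 8) : Fin 8 := ⟨(i.1 + j.1 + 1) % 8, Nat.mod_lt _ (by norm_num)⟩

/-- All vertices. -/
def V : Fin 8 ⊕ Fin 8 → ℤ × ℤ := Sum.elim VA VB

/-- Functionals exposing the `A`-vertices. -/
def gA : Fin 8 → ℤ × ℤ := ![(2947, 186), (687, 2), (3241, -78), (4123, 54), (8617, -93),
  (-651, -2), (6899, 78), (2191, -27)]

/-- Functionals exposing the `B`-vertices. -/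
def gB : Fin 8 → ℤ × ℤ := ![(2947, -186), (687, -2), (3241, 78), (4123, -54), (8617, 93),
  (-651, 2), (6899, -78), (2191, 27)]

/-- Functionals exposing the vertices. -/
def g : Fin 8 ⊕ Fin 8 → ℤ × ℤ := Sum.elim gA gB

lemma V_inj : Function.Injective V := by decide

lemma exposed : ∀ v w : Fin 8 ⊕ Fin 8, w ≠ v →
    (g v).1 * (V w).1 + (g v).2 * (V w).2 < (g v).1 * (V v).1 + (g v).2 * (V v).2 := by
  decide +kernel

lemma pt_inj : Function.Injective pt := by decide

/-- Collinearity of a point, an `A`-vertex and its partner. -/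
lemma coll : ∀ (j : Fin 7) (i : Fin 8),
    ((VA i).1 - (pt j).1) * ((VB (partner j i)).2 - (pt j).2) =
      ((VA i).2 - (pt j).2) * ((VB (partner j i)).1 - (pt j).1) := by
  decide +kernel

lemma VA_ne_pt : ∀ (j : Fin 7) (i : Fin 8), VA i ≠ pt j := by decide +kernel
lemma VB_ne_pt : ∀ (j : Fin 7) (i : Fin 8), VB i ≠ pt j := by decide +kernel
lemma partner_bij : ∀ j, Function.Bijective (partner j) := by decide +kernel

/-- The vertices lie strictly on one side of the line through two of the seven points. -/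
lemma side : ∀ j k : Fin 7, j ≠ k →
    (∀ v, 0 < ((pt k).1 - (pt j).1) * ((V v).2 - (pt j).2) -
      ((pt k).2 - (pt j).2) * ((V v).1 - (pt j).1)) ∨
    (∀ v, ((pt k).1 - (pt j).1) * ((V v).2 - (pt j).2) -
      ((pt k).2 - (pt j).2) * ((V v).1 - (pt j).1) < 0) := by
  decide +kernel

/-- The filled polygon. -/
noncomputable def Q : Set (ℝ × ℝ) := convexHull ℝ (Set.range (fun v => emb (V v)))

/-- Bounding box of the polygon. -/
lemma box : ∀ v, -300000 ≤ (V v).1 ∧ (V v).1 ≤ 0 ∧ -10000000 ≤ (V v).2 ∧ (V v).2 ≤ 10000000 := by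
  decide +kernel

lemma Q_finite : {z : ℤ × ℤ | emb z ∈ Q}.Finite := by
  apply (Set.finite_Icc ((-300000, -10000000) : ℤ × ℤ) (0, 10000000)).subset
  intro z h
  have hb : Q ⊆ {q : ℝ × ℝ | -300000 ≤ q.1 ∧ q.1 ≤ 0 ∧ -10000000 ≤ q.2 ∧ q.2 ≤ 10000000} := by
    apply convexHull_min
    · rintro _ ⟨v, rfl⟩
      obtain ⟨h1, h2, h3, h4⟩ := box v
      refine ⟨?_, ?_, ?_, ?_⟩
      · simp only [emb]; exact_mod_cast h1
      · simp only [emb]; exact_mod_cast h2
      · simp only [emb]; exact_mod_cast h3
      · simp only [emb]; exact_mod_cast h4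
    · intro p hp q hq a b ha hb hab
      simp only [Set.mem_ofPred_eq, Prod.fst_add, Prod.smul_fst, smul_eq_mul, Prod.snd_add,
        Prod.smul_snd] at *
      refine ⟨?_, ?_, ?_, ?_⟩ <;> nlinarith
  obtain ⟨h1, h2, h3, h4⟩ := hb h
  simp only [emb] at h1 h2 h3 h4
  refine ⟨⟨?_, ?_⟩, ?_, ?_⟩
  · show (-300000 : ℤ) ≤ z.1
    exact_mod_cast h1
  · show (-10000000 : ℤ) ≤ z.2
    exact_mod_cast h3
  · show z.1 ≤ (0 : ℤ)
    exact_mod_cast h2
  · show z.2 ≤ (10000000 : ℤ)
    exact_mod_cast h4

/-- The set of all lattice points in the polygon. -/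
noncomputable def F0 : Finset (ℤ × ℤ) := Q_finite.toFinset

lemma mem_F0 (z : ℤ × ℤ) : z ∈ F0 ↔ emb z ∈ Q := by
  rw [F0, Set.Finite.mem_toFinset]
  rfl

lemma V_mem_Q (v : Fin 8 ⊕ Fin 8) : emb (V v) ∈ Q := subset_convexHull ℝ _ ⟨v, rfl⟩

lemma emb_inj : Function.Injective emb := by
  intro a b h
  simp only [emb, Prod.mk.injEq, Int.cast_inj] at h
  exact Prod.ext h.1 h.2

/-- The value of the exposing functional. -/
noncomputable def val (v : Fin 8 ⊕ Fin 8) (q : ℝ × ℝ) : ℝ := ((g v).1 : ℝ) * q.1 + ((g v).2 : ℝ) * q.2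

lemma val_lt (v : Fin 8 ⊕ Fin 8) (q : ℝ × ℝ) (hq : q ∈ Q) (hne : q ≠ emb (V v)) :
    val v q < val v (emb (V v)) := by
  have hsub : Q ⊆ {q : ℝ × ℝ | val v q < val v (emb (V v)) ∨ q = emb (V v)} := by
    apply convexHull_min
    · rintro _ ⟨w, rfl⟩
      by_cases h : w = v
      · right; rw [h]
      · left
        have := exposed v w h
        simp only [val, emb]
        exact_mod_cast this
    · intro p hp q hq a b ha hb hab
      have hval : val v (a • p + b • q) = a * val v p + b * val v q := by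
        simp only [val, Prod.fst_add, Prod.smul_fst, smul_eq_mul, Prod.snd_add, Prod.smul_snd]
        ring
      rcases hp with hp | hp <;> rcases hq with hq | hq
      · left
        show val v (a • p + b • q) < _
        rw [hval]
        rcases eq_or_lt_of_le ha with h | h
        · rw [← h] at hab ⊢
          have : b = 1 := by linarith
          rw [this]; linarith
        · have e1 := mul_lt_mul_of_pos_left hp h
          have e2 := mul_le_mul_of_nonneg_left hq.le hb
          have e3 : a * val v (emb (V v)) + b * val v (emb (V v)) = val v (emb (V v)) := by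
            rw [← add_mul, hab, one_mul]
          linarith
      · rcases eq_or_lt_of_le ha with h | h
        · right
          rw [← h] at hab ⊢
          have : b = 1 := by linarith
          rw [this, hq]; simp
        · left
          show val v (a • p + b • q) < _
          rw [hval, hq]
          have e1 := mul_lt_mul_of_pos_left hp h
          have e3 : a * val v (emb (V v)) + b * val v (emb (V v)) = val v (emb (V v)) := by
            rw [← add_mul, hab, one_mul]
          linarith
      · rcases eq_or_lt_of_le hb with h | h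
        · right
          rw [← h] at hab ⊢
          have : a = 1 := by linarith
          rw [this, hp]; simp
        · left
          show val v (a • p + b • q) < _
          rw [hval, hp]
          have e1 := mul_lt_mul_of_pos_left hq h
          have e3 : a * val v (emb (V v)) + b * val v (emb (V v)) = val v (emb (V v)) := by
            rw [← add_mul, hab, one_mul]
          linarith
      · right
        rw [hp, hq, ← add_smul, hab, one_smul]
  rcases hsub hq with h | h
  · exact h
  · exact absurd h hne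

/-- Removing vertices from the lattice polygon leaves a convex lattice set. -/
lemma convex_sdiff (B : Finset (ℤ × ℤ)) (hB : ∀ z ∈ B, ∃ v, z = V v) :
    IsConvexLatticeSet (F0 \ B) := by
  intro z hz
  have hsub : emb '' ((F0 \ B : Finset (ℤ × ℤ)) : Set (ℤ × ℤ)) ⊆ Q := by
    rintro _ ⟨w, hw, rfl⟩
    rw [Finset.mem_coe, Finset.mem_sdiff] at hw
    exact (mem_F0 w).mp hw.1
  rw [Finset.mem_sdiff]
  refine ⟨(mem_F0 z).mpr (convexHull_min hsub (convex_convexHull ℝ _) hz), ?_⟩
  intro hzB
  obtain ⟨v, rfl⟩ := hB z hzB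
  have hopen : convexHull ℝ (emb '' ((F0 \ B : Finset (ℤ × ℤ)) : Set (ℤ × ℤ))) ⊆
      {q : ℝ × ℝ | val v q < val v (emb (V v))} := by
    apply convexHull_min
    · rintro _ ⟨w, hw, rfl⟩
      rw [Finset.mem_coe, Finset.mem_sdiff] at hw
      apply val_lt v _ ((mem_F0 w).mp hw.1)
      intro h
      exact hw.2 (emb_inj h ▸ hzB)
    · intro p hp q hq a b ha hb hab
      have hval : val v (a • p + b • q) = a * val v p + b * val v q := by
        simp only [val, Prod.fst_add, Prod.smul_fst, smul_eq_mul, Prod.snd_add, Prod.smul_snd]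
        ring
      show val v (a • p + b • q) < _
      rw [hval]
      have hp' : val v p < val v (emb (V v)) := hp
      have hq' : val v q < val v (emb (V v)) := hq
      rcases eq_or_lt_of_le ha with h | h
      · rw [← h] at hab ⊢
        have : b = 1 := by linarith
        rw [this]; linarith
      · have e1 := mul_lt_mul_of_pos_left hp' h
        have e2 := mul_le_mul_of_nonneg_left hq'.le hb
        have e3 : a * val v (emb (V v)) + b * val v (emb (V v)) = val v (emb (V v)) := by
          rw [← add_mul, hab, one_mul]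
        linarith
  have hcon : val v (emb (V v)) < val v (emb (V v)) := hopen hz
  exact lt_irrefl _ hcon

/-- Two points collinear with `p`, both different from `p`, lie on the same subspaces
through `p`. -/
lemma mem_of_coll (p a b : ℤ × ℤ) (ha : a ≠ p)
    (h : (a.1 - p.1) * (b.2 - p.2) = (a.2 - p.2) * (b.1 - p.1))
    (L : AffineSubspace ℝ (ℝ × ℝ)) (hp : emb p ∈ L) (haL : emb a ∈ L) : emb b ∈ L := by
  have hr : ((a.1 : ℝ) - p.1) * ((b.2 : ℝ) - p.2) = ((a.2 : ℝ) - p.2) * ((b.1 : ℝ) - p.1) := by
    exact_mod_cast h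
  have hN : ((a.1 : ℝ) - p.1) ^ 2 + ((a.2 : ℝ) - p.2) ^ 2 ≠ 0 := by
    intro h0
    apply ha
    have h1 : ((a.1 : ℝ) - p.1) = 0 := by nlinarith [sq_nonneg ((a.1 : ℝ) - p.1), sq_nonneg ((a.2 : ℝ) - p.2)]
    have h2 : ((a.2 : ℝ) - p.2) = 0 := by nlinarith [sq_nonneg ((a.1 : ℝ) - p.1), sq_nonneg ((a.2 : ℝ) - p.2)]
    apply Prod.ext
    · have : (a.1 : ℝ) = p.1 := by linarith
      exact_mod_cast this
    · have : (a.2 : ℝ) = p.2 := by linarith
      exact_mod_cast this
  set t : ℝ := (((b.1 : ℝ) - p.1) * ((a.1 : ℝ) - p.1) + ((b.2 : ℝ) - p.2) * ((a.2 : ℝ) - p.2)) /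
    (((a.1 : ℝ) - p.1) ^ 2 + ((a.2 : ℝ) - p.2) ^ 2) with ht
  have key := AffineMap.lineMap_mem t hp haL
  have heq : AffineMap.lineMap (emb p) (emb a) t = emb b := by
    rw [AffineMap.lineMap_apply]
    simp only [emb, vsub_eq_sub, Prod.mk_sub_mk, Prod.smul_mk, smul_eq_mul, vadd_eq_add,
      Prod.mk_add_mk, Prod.mk.injEq]
    constructor
    · rw [ht, div_mul_eq_mul_div, div_add' _ _ _ hN, div_eq_iff hN]
      linear_combination ((a.2 : ℝ) - p.2) * hr
    · rw [ht, div_mul_eq_mul_div, div_add' _ _ _ hN, div_eq_iff hN]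
      linear_combination (-((a.1 : ℝ) - p.1)) * hr
  rw [heq] at key
  exact key

/-- The vertex sets as finite sets. -/
def SA : Finset (ℤ × ℤ) := Finset.univ.image VA
def SB : Finset (ℤ × ℤ) := Finset.univ.image VB

lemma VA_inj : Function.Injective VA := by decide
lemma VB_inj : Function.Injective VB := by decide

lemma count_eq (j : Fin 7) (L : AffineSubspace ℝ (ℝ × ℝ)) (hp : emb (pt j) ∈ L) :
    countOn SA L = countOn SB L := by
  unfold countOn SA SB
  rw [Finset.filter_image, Finset.filter_image, Finset.card_image_of_injective _ VA_inj,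
    Finset.card_image_of_injective _ VB_inj]
  apply Finset.card_bij (fun i _ => partner j i)
  · intro i hi
    rw [Finset.mem_filter] at hi ⊢
    exact ⟨Finset.mem_univ _, mem_of_coll (pt j) (VA i) (VB (partner j i)) (VA_ne_pt j i)
      (coll j i) L hp hi.2⟩
  · intro i _ k _ h
    exact (partner_bij j).1 h
  · intro k hk
    obtain ⟨i, rfl⟩ := (partner_bij j).2 k
    rw [Finset.mem_filter] at hk
    refine ⟨i, ?_, rfl⟩
    rw [Finset.mem_filter]
    refine ⟨Finset.mem_univ _, mem_of_coll (pt j) (VB (partner j i)) (VA i) (VB_ne_pt j _)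
      ?_ L hp hk.2⟩
    have := coll j i
    linarith

lemma SA_sub : SA ⊆ F0 := by
  intro z hz
  obtain ⟨i, _, rfl⟩ := Finset.mem_image.mp hz
  exact (mem_F0 _).mpr (V_mem_Q (Sum.inl i))

lemma SB_sub : SB ⊆ F0 := by
  intro z hz
  obtain ⟨i, _, rfl⟩ := Finset.mem_image.mp hz
  exact (mem_F0 _).mpr (V_mem_Q (Sum.inr i))

lemma count_sdiff (B : Finset (ℤ × ℤ)) (hB : B ⊆ F0) (L : AffineSubspace ℝ (ℝ × ℝ)) :
    countOn (F0 \ B) L + countOn B L = countOn F0 L := by
  unfold countOn
  have h1 : (F0 \ B).filter (fun z => emb z ∈ L) =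
      F0.filter (fun z => emb z ∈ L) \ B.filter (fun z => emb z ∈ L) := by
    ext z
    simp only [Finset.mem_filter, Finset.mem_sdiff]
    tauto
  rw [h1]
  exact Finset.card_sdiff_add_card_eq_card (Finset.filter_subset_filter _ hB)

lemma same_xray (j : Fin 7) : SameXray (pt j) (F0 \ SB) (F0 \ SA) := by
  intro L _ hp
  have h1 := count_sdiff SB SB_sub L
  have h2 := count_sdiff SA SA_sub L
  have h3 := count_eq j L hp
  omega

/-- Points of the polygon avoid the lines through two of the seven points. -/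
lemma avoid (j k : Fin 7) (hjk : j ≠ k) (L : AffineSubspace ℝ (ℝ × ℝ)) (hL : IsLine L)
    (hj : emb (pt j) ∈ L) (hk : emb (pt k) ∈ L) (z : ℤ × ℤ) (hz : z ∈ F0) : emb z ∉ L := by
  intro hzL
  let c : ℝ × ℝ → ℝ := fun q => (((pt k).1 : ℝ) - (pt j).1) * (q.2 - (pt j).2) -
    (((pt k).2 : ℝ) - (pt j).2) * (q.1 - (pt j).1)
  have hne : emb (pt k) - emb (pt j) ≠ 0 := by
    rw [sub_ne_zero]
    intro h
    exact hjk (pt_inj (emb_inj h)).symm
  have hc0 : c (emb z) = 0 := by
    have hd1 : emb (pt k) - emb (pt j) ∈ L.direction := AffineSubspace.vsub_mem_direction hk hj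
    have hd2 : emb z - emb (pt j) ∈ L.direction := AffineSubspace.vsub_mem_direction hzL hj
    obtain ⟨r, hr⟩ := (finrank_eq_one_iff_of_nonzero'
      (⟨emb (pt k) - emb (pt j), hd1⟩ : L.direction)
      (fun h => hne (congrArg Subtype.val h))).mp hL.2 ⟨emb z - emb (pt j), hd2⟩
    have hr' : r • (emb (pt k) - emb (pt j)) = emb z - emb (pt j) := congrArg Subtype.val hr
    have e1 := congrArg Prod.fst hr'
    have e2 := congrArg Prod.snd hr'
    simp only [emb, Prod.smul_fst, Prod.smul_snd, Prod.fst_sub, Prod.snd_sub, smul_eq_mul] at e1 e2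
    simp only [c, emb]
    rw [← e1, ← e2]
    ring
  have hQ := (mem_F0 z).mp hz
  have hconv : ∀ (a b : ℝ) (p q : ℝ × ℝ), a + b = 1 → c (a • p + b • q) = a * c p + b * c q := by
    intro a b p q hab
    simp only [c, Prod.fst_add, Prod.smul_fst, smul_eq_mul, Prod.snd_add, Prod.smul_snd]
    have : b = 1 - a := by linarith
    rw [this]; ring
  rcases side j k hjk with h | h
  · have hsub : Q ⊆ {q | 0 < c q} := by
      apply convexHull_min
      · rintro _ ⟨v, rfl⟩
        have := h v
        simp only [c, emb, Set.mem_ofPred_eq]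
        exact_mod_cast this
      · intro p hp q hq a b ha hb hab
        show 0 < c (a • p + b • q)
        rw [hconv a b p q hab]
        have hp' : 0 < c p := hp
        have hq' : 0 < c q := hq
        rcases eq_or_lt_of_le ha with h0 | h0
        · rw [← h0] at hab ⊢
          have : b = 1 := by linarith
          rw [this]; linarith
        · have := mul_pos h0 hp'
          have := mul_nonneg hb hq'.le
          linarith
    have := hsub hQ
    simp only [Set.mem_ofPred_eq, hc0, lt_irrefl] at this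
  · have hsub : Q ⊆ {q | c q < 0} := by
      apply convexHull_min
      · rintro _ ⟨v, rfl⟩
        have := h v
        simp only [c, emb, Set.mem_ofPred_eq]
        exact_mod_cast this
      · intro p hp q hq a b ha hb hab
        show c (a • p + b • q) < 0
        rw [hconv a b p q hab]
        have hp' : c p < 0 := hp
        have hq' : c q < 0 := hq
        rcases eq_or_lt_of_le ha with h0 | h0
        · rw [← h0] at hab ⊢
          have : b = 1 := by linarith
          rw [this]; linarith
        · have := mul_neg_of_pos_of_neg h0 hp'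
          have := mul_nonpos_of_nonneg_of_nonpos hb hq'.le
          linarith
    have := hsub hQ
    simp only [Set.mem_ofPred_eq, hc0, lt_irrefl] at this

/-- The seven points as a finite set. -/
def P : Finset (ℤ × ℤ) := Finset.univ.image pt

lemma inClass_sdiff (B : Finset (ℤ × ℤ)) (hB : ∀ z ∈ B, ∃ v, z = V v) : InClass P (F0 \ B) := by
  refine ⟨convex_sdiff B hB, ?_⟩
  intro p hp q hq hpq L hL hpL hqL z hz
  obtain ⟨j, _, rfl⟩ := Finset.mem_image.mp hp
  obtain ⟨k, _, rfl⟩ := Finset.mem_image.mp hq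
  exact avoid j k (fun h => hpq (by rw [h])) L hL hpL hqL z (Finset.mem_sdiff.mp hz).1

lemma not_determines : ¬ Determines P := by
  intro h
  have hA : ∀ z ∈ SA, ∃ v, z = V v := by
    intro z hz
    obtain ⟨i, _, rfl⟩ := Finset.mem_image.mp hz
    exact ⟨Sum.inl i, rfl⟩
  have hB : ∀ z ∈ SB, ∃ v, z = V v := by
    intro z hz
    obtain ⟨i, _, rfl⟩ := Finset.mem_image.mp hz
    exact ⟨Sum.inr i, rfl⟩
  have heq := h (F0 \ SB) (F0 \ SA) (inClass_sdiff SB hB) (inClass_sdiff SA hA) (by
    intro p hp
    obtain ⟨j, _, rfl⟩ := Finset.mem_image.mp hp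
    exact same_xray j)
  have h1 : VA 0 ∈ F0 \ SB := by
    rw [Finset.mem_sdiff]
    exact ⟨SA_sub (Finset.mem_image_of_mem _ (Finset.mem_univ _)), by decide⟩
  rw [heq, Finset.mem_sdiff] at h1
  exact h1.2 (Finset.mem_image_of_mem _ (Finset.mem_univ _))

/-- It is not true that discrete point X-rays at every set of seven distinct lattice points
determine convex lattice sets. -/
theorem result : ¬ ∀ P : Finset (ℤ × ℤ), P.card = 7 → Determines P := by
  intro h
  exact not_determines (h P (by decide))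

end Pool.Agent.Results.MP_259ac5_co.SevenPoints
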